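import Mathlib
import Pool.Agent.V11299.SP.Mix

/-! # MP_f2d454_nt: the positive values of `μ_D`

Let `D = (d_1, d_2, ...)` with all `d_k ≥ 2`, `μ_D(α) = inf q |q|_D ⟨qα⟩`, and let
`D_j = (d_{j+1}, d_{j+2}, ...)` be the shifted sequences (`D_j = D` when `D` is constant). The class
of `α` consists of the numbers `r α + s`, `r ≠ 0` and `s` rational.

1. If `n ≥ 1` is prime to all `d_k`, then `μ_D(α) / n` is a value of `μ_D` on the class of `α`.
2. For all `D`, `α`, `n ≥ 1`, `ε > 0` there are `j` and `x` in the class of `α` with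
   `μ_D(α) / n ≤ μ_{D_j}(x) < μ_D(α) / n + ε`.
3. If `μ_D(α) = c > 0`, every interval `[t, t + (3/c) t²]`, `0 < t ≤ c`, contains a value
   `μ_{D_j}(x)`, `x` in the class of `α`. If `t > 0` and no such value is in `[t, 2t)`, then
   `μ_D(α) < t`.
4. For each pair `D`, `α` the following are equivalent: `μ_D(α) = 0`; the set of positive values
   `μ_{D_j}(x)`, `j ≥ 0`, `x` in the class of `α`, is finite; for all `C, δ > 0` this set does not
   meet some interval `[t, t + C t²]`, `0 < t < δ`.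
5. For each `D` the following are equivalent: `μ_D(α) = 0` for all `α`; the set of positive values
   `μ_{D_j}(x)`, `j ≥ 0`, `x` real, is finite; it has gaps as in 4; `μ_D` vanishes on some nonempty
   open set; for every `ε > 0` there is `N` such that all `α` have `q |q|_D ⟨qα⟩ < ε` for some
   `1 ≤ q ≤ N`.
6. The following are equivalent: `μ_D(α) = 0` for all `D` and `α`; the set of all positive values
   `μ_D(α)` is finite; it has gaps as in 4. -/

set_option autoImplicit false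

open Filter Topology

namespace Pool.Agent.Results.MP_f2d454_nt.InfimumSpectrum

/-- `t_n = d_1 ⋯ d_n` -/
def t (d : ℕ → ℕ) (n : ℕ) : ℕ := ∏ k ∈ Finset.range n, d (k + 1)

/-- the largest `n` with `t_n ∣ q` (any such `n` is at most `q`) -/
def om (d : ℕ → ℕ) (q : ℕ) : ℕ := Nat.findGreatest (fun n => t d n ∣ q) q

/-- `|q|_D` -/
noncomputable def w (d : ℕ → ℕ) (q : ℕ) : ℝ := 1 / (t d (om d q) : ℝ)

/-- `q |q|_D ⟨qα⟩` -/
noncomputable def val (d : ℕ → ℕ) (α : ℝ) (q : ℕ) : ℝ :=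
  (q : ℝ) * w d q * |(q : ℝ) * α - (round ((q : ℝ) * α) : ℝ)|

/-- the infimum of `q |q|_D ⟨qα⟩` over the positive integers `q` -/
noncomputable def mu (d : ℕ → ℕ) (α : ℝ) : ℝ := sInf {v : ℝ | ∃ q : ℕ, 0 < q ∧ val d α q = v}

/-- the sequence `d_{j+1}, d_{j+2}, ...` -/
def sh (d : ℕ → ℕ) (j : ℕ) : ℕ → ℕ := fun k => d (k + j)

/-- the terms are at least two -/
def Adm (d : ℕ → ℕ) : Prop := ∀ k, 1 ≤ k → 2 ≤ d k

/-- the numbers which arise from `α` by rational affine maps -/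
def Class (α : ℝ) : Set ℝ := {x | ∃ r s : ℚ, r ≠ 0 ∧ x = r * α + s}

/-- the positive values `μ_{D_j}(x)`, `j ≥ 0`, `x ∈ X` -/
def Values (d : ℕ → ℕ) (X : Set ℝ) : Set ℝ := {c | 0 < c ∧ ∃ j : ℕ, ∃ x ∈ X, mu (sh d j) x = c}

/-- all positive values `μ_D(x)` -/
def AllValues : Set ℝ := {c | 0 < c ∧ ∃ d : ℕ → ℕ, Adm d ∧ ∃ x : ℝ, mu d x = c}

/-- for all `C, δ > 0` some interval `[t, t + C t²]`, `0 < t < δ`, does not meet `S` -/
def Gaps (S : Set ℝ) : Prop :=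
  ∀ C : ℝ, 0 < C → ∀ δ : ℝ, 0 < δ → ∃ t : ℝ, 0 < t ∧ t < δ ∧
    ∀ s ∈ S, ¬ (t ≤ s ∧ s ≤ t + C * t ^ 2)

lemma Adm.sh {d : ℕ → ℕ} (h : Adm d) (j : ℕ) : Adm (sh d j) := fun k hk => h (k + j) (by omega)

lemma sh_zero (d : ℕ → ℕ) : sh d 0 = d := rfl

lemma sh_sh (d : ℕ → ℕ) (i j : ℕ) : sh (sh d i) j = sh d (j + i) := by
  funext k
  simp only [sh]
  congr 1
  omega

lemma t_zero (d : ℕ → ℕ) : t d 0 = 1 := by simp [t]

lemma t_succ (d : ℕ → ℕ) (n : ℕ) : t d (n + 1) = t d n * d (n + 1) := by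
  simp [t, Finset.prod_range_succ]

lemma t_add (d : ℕ → ℕ) (j m : ℕ) : t d (j + m) = t d j * t (sh d j) m := by
  induction m with
  | zero => simp [t_zero]
  | succ m ih =>
    rw [← add_assoc, t_succ, ih, t_succ, mul_assoc]
    congr 2
    simp only [sh]
    congr 1
    omega

lemma pow_le_t {d : ℕ → ℕ} (h : Adm d) (n : ℕ) : 2 ^ n ≤ t d n := by
  induction n with
  | zero => simp [t_zero]
  | succ n ih =>
    rw [t_succ, pow_succ]
    exact Nat.mul_le_mul ih (h (n + 1) (by omega))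

lemma t_pos {d : ℕ → ℕ} (h : Adm d) (n : ℕ) : 0 < t d n :=
  lt_of_lt_of_le (by positivity) (pow_le_t h n)

lemma t_dvd (d : ℕ → ℕ) {n m : ℕ} (hnm : n ≤ m) : t d n ∣ t d m := by
  obtain ⟨k, rfl⟩ := Nat.exists_eq_add_of_le hnm
  rw [t_add]
  exact dvd_mul_right _ _

lemma le_of_t_dvd {d : ℕ → ℕ} (h : Adm d) {n q : ℕ} (hq : 0 < q) (hd : t d n ∣ q) : n ≤ q :=
  ((Nat.lt_two_pow_self).le.trans (pow_le_t h n)).trans (Nat.le_of_dvd hq hd)

lemma t_om_dvd (d : ℕ → ℕ) (q : ℕ) : t d (om d q) ∣ q := by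
  have : t d 0 ∣ q := by rw [t_zero]; exact one_dvd q
  exact Nat.findGreatest_spec (P := fun n => t d n ∣ q) (Nat.zero_le q) this

lemma le_om_iff {d : ℕ → ℕ} (h : Adm d) {n q : ℕ} (hq : 0 < q) : n ≤ om d q ↔ t d n ∣ q := by
  constructor
  · intro hn
    exact (t_dvd d hn).trans (t_om_dvd d q)
  · intro hd
    exact Nat.le_findGreatest (le_of_t_dvd h hq hd) hd

lemma om_mono {d : ℕ → ℕ} (h : Adm d) {q q' : ℕ} (hq' : 0 < q') (hd : q ∣ q') :
    om d q ≤ om d q' := (le_om_iff h hq').2 ((t_om_dvd d q).trans hd)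

lemma w_nonneg (d : ℕ → ℕ) (q : ℕ) : 0 ≤ w d q := by
  unfold w
  positivity

lemma w_anti {d : ℕ → ℕ} (h : Adm d) {q q' : ℕ} (hq' : 0 < q') (hd : q ∣ q') :
    w d q' ≤ w d q := by
  unfold w
  have h1 : (0 : ℝ) < t d (om d q) := by exact_mod_cast t_pos h _
  refine one_div_le_one_div_of_le h1 ?_
  exact_mod_cast Nat.le_of_dvd (t_pos h _) (t_dvd d (om_mono h hq' hd))

lemma w_mono {d : ℕ → ℕ} (h : Adm d) (D q : ℕ) (hD : 0 < D) (hq : 0 < q) :
    w d (D * q) ≤ w d q := w_anti h (by positivity) (dvd_mul_left q D)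

lemma om_mul {d : ℕ → ℕ} (h : Adm d) (j : ℕ) {q : ℕ} (hq : 0 < q) :
    om d (t d j * q) = j + om (sh d j) q := by
  have hj := t_pos h j
  have hq' : 0 < t d j * q := by positivity
  apply le_antisymm
  · by_contra hcon
    push Not at hcon
    have h1 : j + (om (sh d j) q + 1) ≤ om d (t d j * q) := by omega
    rw [le_om_iff h hq', t_add, Nat.mul_dvd_mul_iff_left hj, ← le_om_iff (h.sh j) hq] at h1
    omega
  · rw [le_om_iff h hq', t_add]
    exact Nat.mul_dvd_mul_left _ (t_om_dvd _ _)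

lemma w_t_mul {d : ℕ → ℕ} (h : Adm d) (j : ℕ) {q : ℕ} (hq : 0 < q) :
    w d (t d j * q) = w (sh d j) q / t d j := by
  unfold w
  rw [om_mul h j hq, t_add]
  push_cast
  rw [div_div, mul_comm]

lemma w_sh_le {d : ℕ → ℕ} (h : Adm d) (j : ℕ) {q : ℕ} (hq : 0 < q) :
    w (sh d j) q ≤ t d j * w d q := by
  have h1 := w_mono h (t d j) q (t_pos h j) hq
  have h2 : (0 : ℝ) < t d j := by exact_mod_cast t_pos h j
  rw [w_t_mul h j hq, div_le_iff₀ h2] at h1
  linarith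

lemma w_mul_cop {d : ℕ → ℕ} (h : Adm d) {l : ℕ} (hl : l.Prime) (hld : ∀ k, 1 ≤ k → ¬ l ∣ d k)
    (q : ℕ) (hq : 0 < q) : w d (l * q) = w d q := by
  have hcop : ∀ n, Nat.Coprime (t d n) l := fun n => by
    unfold t
    refine Nat.Coprime.prod_left fun k _ => ?_
    exact ((Nat.Prime.coprime_iff_not_dvd hl).2 (hld (k + 1) (by omega))).symm
  have hq' : 0 < l * q := Nat.mul_pos hl.pos hq
  have : om d (l * q) = om d q := by
    apply le_antisymm
    · rw [le_om_iff h hq]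
      exact (hcop _).dvd_of_dvd_mul_left (t_om_dvd d (l * q))
    · exact om_mono h hq' (dvd_mul_left q l)
  unfold w
  rw [this]

lemma mu_iff (d : ℕ → ℕ) (α c : ℝ) : mu d α = c ↔ V11299.SP.InfIs (V11299.SP.mw (w d) α) c := by
  have hne : {v : ℝ | ∃ q : ℕ, 0 < q ∧ val d α q = v}.Nonempty := ⟨_, 1, one_pos, rfl⟩
  have hb : BddBelow {v : ℝ | ∃ q : ℕ, 0 < q ∧ val d α q = v} :=
    ⟨0, by rintro _ ⟨x, hx, rfl⟩; exact V11299.SP.mw_nonneg (w_nonneg d) α x⟩
  have h0 : V11299.SP.InfIs (V11299.SP.mw (w d) α) (mu d α) :=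
    (V11299.SP.infIs_iff _ _).1 (isGLB_csInf hne hb)
  constructor
  · rintro rfl
    exact h0
  · intro h
    exact h0.unique h

lemma mu_spec (d : ℕ → ℕ) (α : ℝ) : V11299.SP.InfIs (V11299.SP.mw (w d) α) (mu d α) :=
  (mu_iff d α _).1 rfl

lemma mu_nonneg (d : ℕ → ℕ) (α : ℝ) : 0 ≤ mu d α := by
  obtain ⟨μ, hμ, h⟩ := V11299.SP.exists_infIs (V11299.SP.mw_nonneg (w_nonneg d) α)
  rwa [(mu_iff d α μ).2 h]

lemma zero_iff (d : ℕ → ℕ) (α : ℝ) : mu d α = 0 ↔ V11299.SP.Z (w d) α := by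
  constructor
  · intro h ε hε
    obtain ⟨q, hq, hlt⟩ := (mu_spec d α).2 ε hε
    exact ⟨q, hq, by rw [h, zero_add] at hlt; exact hlt⟩
  · intro h
    by_contra hne
    exact V11299.SP.not_Z_of_pos (lt_of_le_of_ne (mu_nonneg d α) (Ne.symm hne)) (mu_spec d α) h

open V11299.SP in
/-- approximate division by a prime, after a shift of the sequence -/
lemma step {d : ℕ → ℕ} (h : Adm d) {α : ℝ} {l : ℕ} (hl : l.Prime) {ε : ℝ} (hε : 0 < ε) :
    ∃ j : ℕ, ∃ x ∈ Cl α, mu d α / l ≤ mu (sh d j) x ∧ mu (sh d j) x < mu d α / l + ε := by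
  set μ := mu d α with hμ
  have hinf := mu_spec d α
  rw [← hμ] at hinf
  have hl0 := hl.pos
  have hl' : (0 : ℝ) < l := by exact_mod_cast hl0
  obtain ⟨q₀, hq₀, hlt⟩ := hinf.2 (l * ε) (by positivity)
  obtain ⟨q₁, hq₁⟩ := t_om_dvd d q₀
  set j := om d q₀ with hj
  have hq₁0 : 0 < q₁ := Nat.pos_of_ne_zero (by rintro rfl; simp at hq₁; omega)
  have htj : (0 : ℝ) < t d j := by exact_mod_cast t_pos h j
  have hom : om (sh d j) q₁ = 0 := by
    have := om_mul h j hq₁0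
    rw [← hq₁, ← hj] at this
    omega
  have hw1 : w (sh d j) q₁ = 1 := by
    unfold w
    rw [hom, t_zero]
    simp
  have key : ∀ q : ℕ, 0 < q → mw (w (sh d j)) ((t d j : ℝ) * α) q = mw (w d) α (t d j * q) := by
    intro q hq
    rw [mw_eq, mw_eq, w_t_mul h j hq]
    push_cast
    rw [show (q : ℝ) * ((t d j : ℝ) * α) = (t d j : ℝ) * q * α by ring]
    field_simp
  have hlow : ∀ q : ℕ, 0 < q → μ ≤ mw (w (sh d j)) ((t d j : ℝ) * α) q := by
    intro q hq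
    rw [key q hq]
    exact hinf.1 _ (Nat.mul_pos (t_pos h j) hq)
  have hup : mw (w (sh d j)) ((t d j : ℝ) * α) q₁ < μ + l * ε := by
    rw [key q₁ hq₁0, ← hq₁]
    exact hlt
  have hβ : ((t d j : ℝ) * α) ∈ Cl α :=
    ⟨t d j, 0, by exact_mod_cast (t_pos h j).ne', by push_cast; ring⟩
  set β := (t d j : ℝ) * α with hβd
  have fin : ∀ x : ℝ, (∀ q : ℕ, 0 < q → μ / l ≤ mw (w (sh d j)) x q) →
      (∃ q : ℕ, 0 < q ∧ mw (w (sh d j)) x q < μ / l + ε) →
      μ / l ≤ mu (sh d j) x ∧ mu (sh d j) x < μ / l + ε := by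
    rintro x h1 ⟨q, hq, h2⟩
    have h3 := mu_spec (sh d j) x
    refine ⟨?_, lt_of_le_of_lt (h3.1 q hq) h2⟩
    refine le_of_forall_pos_le_add fun δ hδ => ?_
    obtain ⟨q', hq', h4⟩ := h3.2 δ hδ
    exact (h1 q' hq').trans h4.le
  by_cases hdvd : l ∣ q₁
  · obtain ⟨q₂, rfl⟩ := hdvd
    have hq₂ : 0 < q₂ := Nat.pos_of_ne_zero (by rintro rfl; simp at hq₁0)
    refine ⟨j, (l : ℝ) * β, Cl_trans hβ ⟨l, 0, by exact_mod_cast hl.ne_zero, by push_cast; ring⟩,
      fin _ (fun q hq => ?_) ⟨q₂, hq₂, ?_⟩⟩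
    · have h1 := hlow (l * q) (Nat.mul_pos hl0 hq)
      have h2 := w_mono (h.sh j) l q hl0 hq
      rw [div_le_iff₀ hl']
      refine h1.trans ?_
      rw [mw_eq, mw_eq]
      push_cast
      rw [show (q : ℝ) * (l * β) = l * q * β by ring]
      calc (l : ℝ) * q * w (sh d j) (l * q) * nd (l * q * β)
          ≤ (l : ℝ) * q * w (sh d j) q * nd (l * q * β) := by
            refine mul_le_mul_of_nonneg_right (mul_le_mul_of_nonneg_left h2 (by positivity))
              (nd_nonneg _)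
        _ = _ := by ring
    · have hw2 : w (sh d j) q₂ = 1 := by
        have : om (sh d j) q₂ = 0 := by
          have := om_mono (h.sh j) hq₁0 (dvd_mul_left q₂ l)
          omega
        unfold w
        rw [this, t_zero]
        simp
      rw [mw_eq, hw1] at hup
      rw [mw_eq, hw2]
      push_cast at hup
      rw [show (q₂ : ℝ) * (l * β) = l * q₂ * β by ring]
      have e : (μ / l + ε) = (μ + l * ε) / l := by field_simp
      rw [e, lt_div_iff₀ hl']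
      linarith
  · obtain ⟨a, ha⟩ := exists_residue hl q₁ hdvd (round ((q₁ : ℝ) * β))
    refine ⟨j, (β - (((a : ℕ) : ℤ) : ℝ)) / l, Cl_trans hβ
      ⟨1 / l, -(((a : ℕ) : ℤ) : ℚ) / l, ?_, ?_⟩, fin _ (fun q hq => ?_) ⟨q₁, hq₁0, ?_⟩⟩
    · have : (l : ℚ) ≠ 0 := by exact_mod_cast hl.ne_zero
      positivity
    · push_cast
      field_simp
      ring
    · have h1 := nd_div_ge hl0 β (((a : ℕ) : ℤ)) q
      have h2 := hlow q hq
      rw [mw_eq] at h2 ⊢
      calc μ / l ≤ q * w (sh d j) q * nd (q * β) / l := div_le_div_of_nonneg_right h2 hl'.le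
        _ = q * w (sh d j) q * (nd (q * β) / l) := by ring
        _ ≤ _ := mul_le_mul_of_nonneg_left h1 (mul_nonneg (Nat.cast_nonneg _) (w_nonneg _ q))
    · have h1 := nd_div_le hl0 β (((a : ℕ) : ℤ)) q₁ ha
      rw [mw_eq] at hup ⊢
      calc _ ≤ q₁ * w (sh d j) q₁ * (nd (q₁ * β) / l) :=
            mul_le_mul_of_nonneg_left h1 (mul_nonneg (Nat.cast_nonneg _) (w_nonneg _ q₁))
        _ = q₁ * w (sh d j) q₁ * nd (q₁ * β) / l := by ring
        _ < μ / l + ε := by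
            rw [div_lt_iff₀ hl']
            have : (μ / l + ε) * l = μ + l * ε := by field_simp
            rwa [this]

open V11299.SP in
lemma approx {d : ℕ → ℕ} (h : Adm d) (α : ℝ) (n : ℕ) (hn : 0 < n) : ∀ ε : ℝ, 0 < ε →
    ∃ j : ℕ, ∃ x ∈ Cl α, mu d α / n ≤ mu (sh d j) x ∧ mu (sh d j) x < mu d α / n + ε := by
  revert hn
  induction n using induction_on_primes with
  | zero => intro h; exact absurd h (lt_irrefl 0)
  | one =>
    intro _ ε hε
    exact ⟨0, α, self_mem_Cl α, by simp [sh_zero], by simpa [sh_zero] using hε⟩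
  | prime_mul p a hp ih =>
    intro hpa ε hε
    have ha : 0 < a := by
      rcases Nat.eq_zero_or_pos a with rfl | h
      · simp at hpa
      · exact h
    have hp1 : (1 : ℝ) ≤ p := by exact_mod_cast hp.one_lt.le
    have hp' : (0 : ℝ) < p := by linarith
    obtain ⟨j, x, hx, h1, h2⟩ := ih ha (ε / 2) (by linarith)
    obtain ⟨i, y, hy, h3, h4⟩ := step (h.sh j) (α := x) hp (half_pos hε)
    have he : mu d α / ((p * a : ℕ) : ℝ) = mu d α / a / p := by
      push_cast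
      rw [div_div, mul_comm]
    have h5 : mu d α / a / p ≤ mu (sh d j) x / p := div_le_div_of_nonneg_right h1 hp'.le
    have h6 : mu (sh d j) x / p ≤ mu d α / a / p + ε / 2 := by
      rw [div_le_iff₀ hp']
      have : (mu d α / a / p + ε / 2) * p = mu d α / a + ε / 2 * p := by field_simp
      rw [this]
      nlinarith
    rw [sh_sh] at h3 h4
    exact ⟨i + j, y, Cl_trans hx hy, by rw [he]; linarith, by rw [he]; linarith⟩

lemma values_near {d : ℕ → ℕ} (h : Adm d) {α : ℝ} (hα : 0 < mu d α) {t : ℝ} (ht : 0 < t)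
    (htc : t ≤ mu d α) :
    ∃ j : ℕ, ∃ x ∈ Class α, t ≤ mu (sh d j) x ∧ mu (sh d j) x ≤ t + 3 / mu d α * t ^ 2 := by
  obtain ⟨n, hn, h1, h2⟩ := V11299.SP.exists_near hα ht htc
  obtain ⟨j, x, hx, h3, h4⟩ := approx h α n hn (1 / mu d α * t ^ 2) (by positivity)
  refine ⟨j, x, hx, h1.trans h3, ?_⟩
  have e : t + 3 / mu d α * t ^ 2 = t + 2 / mu d α * t ^ 2 + 1 / mu d α * t ^ 2 := by ring
  rw [e]
  linarith

lemma window {d : ℕ → ℕ} (hd : Adm d) {α t : ℝ} (ht : 0 < t)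
    (h : ∀ j : ℕ, ∀ x ∈ Class α, ¬ (t ≤ mu (sh d j) x ∧ mu (sh d j) x < 2 * t)) :
    mu d α < t := by
  by_contra hcon
  push Not at hcon
  have hα : 0 < mu d α := ht.trans_le hcon
  have h1 : (1 : ℝ) ≤ mu d α / t := by rwa [le_div_iff₀ ht, one_mul]
  have hn1 : 1 ≤ ⌊mu d α / t⌋₊ := Nat.le_floor (by exact_mod_cast h1)
  have hle := Nat.floor_le (show (0 : ℝ) ≤ mu d α / t by positivity)
  have hlt := Nat.lt_floor_add_one (mu d α / t)
  set n := ⌊mu d α / t⌋₊ with hn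
  have hn1' : (1 : ℝ) ≤ n := by exact_mod_cast hn1
  have hn0 : (0 : ℝ) < n := by linarith
  rw [le_div_iff₀ ht] at hle
  rw [div_lt_iff₀ ht] at hlt
  have h2 : t ≤ mu d α / n := by
    rw [le_div_iff₀ hn0]
    linarith
  have h3 : mu d α / n < 2 * t := by
    rw [div_lt_iff₀ hn0]
    nlinarith
  obtain ⟨j, x, hx, h4, h5⟩ := approx hd α n hn1 (2 * t - mu d α / n) (by linarith)
  exact h j x hx ⟨h2.trans h4, by linarith⟩

lemma gaps_of_finite {S : Set ℝ} (h0 : ∀ s ∈ S, 0 < s) (hfin : S.Finite) : Gaps S := by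
  intro C hC δ hδ
  obtain ⟨m, hm, hmin⟩ : ∃ m : ℝ, 0 < m ∧ ∀ s ∈ S, m ≤ s := by
    rcases S.eq_empty_or_nonempty with he | hne
    · exact ⟨1, one_pos, by simp [he]⟩
    · obtain ⟨m, hm, hle⟩ := Set.exists_min_image S id hfin hne
      exact ⟨m, h0 m hm, hle⟩
  refine ⟨min (δ / 2) (min (m / 4) (1 / (2 * C))), by positivity,
    lt_of_le_of_lt (min_le_left _ _) (by linarith), ?_⟩
  rintro s hs ⟨_, hle⟩
  set t := min (δ / 2) (min (m / 4) (1 / (2 * C))) with ht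
  have ht0 : 0 < t := by positivity
  have h1 : t ≤ m / 4 := (min_le_right _ _).trans (min_le_left _ _)
  have h2 : t ≤ 1 / (2 * C) := (min_le_right _ _).trans (min_le_right _ _)
  rw [le_div_iff₀ (by positivity)] at h2
  have h3 := hmin s hs
  nlinarith

lemma zero_of_gaps {d : ℕ → ℕ} (hd : Adm d) {α : ℝ} {S : Set ℝ}
    (hS : ∀ j : ℕ, ∀ x ∈ Class α, 0 < mu (sh d j) x → mu (sh d j) x ∈ S)
    (h : Gaps S) : mu d α = 0 := by
  by_contra hne
  have hα : 0 < mu d α := lt_of_le_of_ne (mu_nonneg d α) (Ne.symm hne)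
  obtain ⟨t, ht0, htc, ht⟩ := h (3 / mu d α) (by positivity) _ hα
  obtain ⟨j, x, hx, h1, h2⟩ := values_near hd hα ht0 htc.le
  exact ht _ (hS j x hx (ht0.trans_le h1)) ⟨h1, h2⟩

lemma zero_sh {d : ℕ → ℕ} (hd : Adm d) {α : ℝ} (h : mu d α = 0) (j : ℕ) {x : ℝ}
    (hx : x ∈ Class α) : mu (sh d j) x = 0 := by
  rw [zero_iff] at h ⊢
  refine V11299.SP.Z_of_Cl (w_nonneg _) (fun D q hD hq => w_mono (hd.sh j) D q hD hq) ?_ hx
  intro ε hε
  have ht : (0 : ℝ) < t d j := by exact_mod_cast t_pos hd j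
  obtain ⟨q, hq, hlt⟩ := h (ε / t d j) (by positivity)
  refine ⟨q, hq, ?_⟩
  rw [lt_div_iff₀ ht, V11299.SP.mw_eq] at hlt
  rw [V11299.SP.mw_eq]
  calc (q : ℝ) * w (sh d j) q * V11299.SP.nd (q * α)
      ≤ q * (t d j * w d q) * V11299.SP.nd (q * α) :=
        mul_le_mul_of_nonneg_right (mul_le_mul_of_nonneg_left (w_sh_le hd j hq)
          (Nat.cast_nonneg _)) (V11299.SP.nd_nonneg _)
    _ = q * w d q * V11299.SP.nd (q * α) * t d j := by ring
    _ < ε := hlt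

lemma values_empty {d : ℕ → ℕ} {X : Set ℝ} (h : ∀ j : ℕ, ∀ x ∈ X, mu (sh d j) x = 0) :
    Values d X = ∅ := by
  rw [Set.eq_empty_iff_forall_notMem]
  rintro c ⟨hc, j, x, hx, rfl⟩
  exact hc.ne' (h j x hx)

theorem result :
    (∀ d : ℕ → ℕ, Adm d → ∀ (α : ℝ) (n : ℕ), 0 < n → (∀ k, 1 ≤ k → Nat.Coprime n (d k)) →
      ∃ x ∈ Class α, mu d x = mu d α / n) ∧
    (∀ d : ℕ → ℕ, Adm d → ∀ (α : ℝ) (n : ℕ), 0 < n → ∀ ε : ℝ, 0 < ε →
      ∃ j : ℕ, ∃ x ∈ Class α, mu d α / n ≤ mu (sh d j) x ∧ mu (sh d j) x < mu d α / n + ε) ∧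
    (∀ d : ℕ → ℕ, Adm d → ∀ α : ℝ, 0 < mu d α → ∀ t : ℝ, 0 < t → t ≤ mu d α →
      ∃ j : ℕ, ∃ x ∈ Class α, t ≤ mu (sh d j) x ∧ mu (sh d j) x ≤ t + 3 / mu d α * t ^ 2) ∧
    (∀ d : ℕ → ℕ, Adm d → ∀ α t : ℝ, 0 < t →
      (∀ j : ℕ, ∀ x ∈ Class α, ¬ (t ≤ mu (sh d j) x ∧ mu (sh d j) x < 2 * t)) → mu d α < t) ∧
    (∀ d : ℕ → ℕ, Adm d → ∀ α : ℝ, List.TFAE [
      mu d α = 0,
      (Values d (Class α)).Finite,
      Gaps (Values d (Class α))]) ∧
    (∀ d : ℕ → ℕ, Adm d → List.TFAE [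
      ∀ α : ℝ, mu d α = 0,
      (Values d Set.univ).Finite,
      Gaps (Values d Set.univ),
      ∃ U : Set ℝ, IsOpen U ∧ U.Nonempty ∧ ∀ α ∈ U, mu d α = 0,
      ∀ ε : ℝ, 0 < ε → ∃ N : ℕ, ∀ α : ℝ, ∃ q : ℕ, 0 < q ∧ q ≤ N ∧ val d α q < ε]) ∧
    List.TFAE [
      ∀ d : ℕ → ℕ, Adm d → ∀ α : ℝ, mu d α = 0,
      AllValues.Finite,
      Gaps AllValues] := by
  refine ⟨fun d hd α n hn hcop => ?_, fun d hd α n hn ε hε => approx hd α n hn ε hε,
    fun d hd α hα t ht htc => values_near hd hα ht htc, fun d hd α t ht h => window hd ht h,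
    fun d hd α => ?_, fun d hd => ?_, ?_⟩
  · obtain ⟨x, hx, h⟩ := V11299.SP.exists_div_mix (w_nonneg d) (mu_spec d α) n hn
      (fun l hl hln q hq => w_mul_cop hd hl (fun k hk hlk =>
        hl.one_lt.ne' (Nat.dvd_one.1 ((hcop k hk) ▸ Nat.dvd_gcd hln hlk))) q hq)
    exact ⟨x, hx, (mu_iff _ _ _).2 h⟩
  · tfae_have 1 → 2 := by
      intro h
      rw [values_empty fun j x hx => zero_sh hd h j hx]
      exact Set.finite_empty
    tfae_have 2 → 3 := gaps_of_finite fun s hs => hs.1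
    tfae_have 3 → 1 := fun h =>
      zero_of_gaps (S := Values d (Class α)) hd (fun j x hx h0 => ⟨h0, j, x, hx, rfl⟩) h
    tfae_finish
  · tfae_have 1 → 2 := by
      intro h
      rw [values_empty fun j x _ => zero_sh hd (h x) j (V11299.SP.self_mem_Cl x)]
      exact Set.finite_empty
    tfae_have 2 → 3 := gaps_of_finite fun s hs => hs.1
    tfae_have 3 → 1 := fun h α =>
      zero_of_gaps (S := Values d Set.univ) hd (fun j x _ h0 => ⟨h0, j, x, Set.mem_univ x, rfl⟩) h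
    tfae_have 1 → 4 := fun h => ⟨Set.univ, isOpen_univ, Set.univ_nonempty, fun x _ => h x⟩
    tfae_have 4 → 1 := by
      rintro ⟨U, hU, hne, h⟩ α
      by_contra hcon
      rw [zero_iff] at hcon
      obtain ⟨x, hx, hbad⟩ := V11299.SP.dense_mix (w_nonneg d) hcon hU hne
      exact hbad ((zero_iff d x).1 (h x hx))
    tfae_have 1 → 5 := fun h ε hε =>
      V11299.SP.uniform_mix (fun α => (zero_iff d α).1 (h α)) ε hε
    tfae_have 5 → 1 := by
      intro h α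
      rw [zero_iff]
      intro ε hε
      obtain ⟨N, hN⟩ := h ε hε
      obtain ⟨q, hq, -, hlt⟩ := hN α
      exact ⟨q, hq, hlt⟩
    tfae_finish
  · tfae_have 1 → 2 := by
      intro h
      have : AllValues = ∅ := by
        rw [Set.eq_empty_iff_forall_notMem]
        rintro c ⟨hc, d, hd, x, rfl⟩
        exact hc.ne' (h d hd x)
      rw [this]
      exact Set.finite_empty
    tfae_have 2 → 3 := gaps_of_finite fun s hs => hs.1
    tfae_have 3 → 1 := fun h d hd α =>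
      zero_of_gaps (S := AllValues) hd (fun j x _ h0 => ⟨h0, sh d j, hd.sh j, x, rfl⟩) h
    tfae_finish

end Pool.Agent.Results.MP_f2d454_nt.InfimumSpectrum
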